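import Mathlib
import Pool.Agent.Q75.PolB

/-!
# MP_ace873_an: elements of `L₁(μ) ⊗ Y` which do not attain the projective norm, `Y` polyhedral

The answer to Q1 is no.  There is one real polyhedral Banach space `Y` such that for every nonzero
finite measure `μ` without atoms on a countably separated measurable space (Lebesgue measure on the
unit interval, for instance) some `f` in `L₁(μ, Y)` has no optimal representation.

`Y` is a renorming of `c₀`; on a sequence `x` its norm is the supremum of the values `|b (n, σ) x|`,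
where `σ` is a sequence of signs, `n` is a natural number and
`b (n, σ) x = σ n * x n + ∑ k < n, 2 ^ (-k-1) * b (k, σ) x`.
For every `σ` the vector `e σ = (σ n * 2 ^ (-n))` of norm one is the only vector on which all
functionals `b (n, σ)` have the value `1`.  A function with values `e σ`, injective in `σ`, has no
optimal representation.
-/

set_option autoImplicit false

open Filter Topology MeasureTheory

namespace Pool.Agent.Results.MP_ace873_an.PolyhedralNotAttaining

/-- A normed space is polyhedral if the closed unit ball of every finite-dimensional subspace is a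
polytope, that is the convex hull of a finite set. -/
def Polyhedral (V : Type) [NormedAddCommGroup V] [NormedSpace ℝ V] : Prop :=
  ∀ E : Submodule ℝ V, FiniteDimensional ℝ E →
    ∃ F : Set V, F.Finite ∧ {y : V | y ∈ E ∧ ‖y‖ ≤ 1} = convexHull ℝ F

/-- The element `f` of `L₁(μ, V)`, the projective tensor product of `L₁(μ)` and `V`, is
norm-attaining: `f = ∑ g i ⊗ y i` almost everywhere, with `g i` in `L₁(μ)`, `y i` in `V` and
`∑ ‖g i‖₁ ‖y i‖ = ‖f‖`. -/
def NormAttaining {Ω : Type} [MeasurableSpace Ω] (μ : Measure Ω) {V : Type}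
    [NormedAddCommGroup V] [NormedSpace ℝ V] (f : Ω → V) : Prop :=
  ∃ (g : ℕ → Ω → ℝ) (y : ℕ → V), (∀ i, Integrable (g i) μ) ∧
    (∀ᵐ ω ∂μ, HasSum (fun i => g i ω • y i) (f ω)) ∧
    HasSum (fun i => (∫ ω, |g i ω| ∂μ) * ‖y i‖) (∫ ω, ‖f ω‖ ∂μ)

open Pool.Agent.Q75.Pol

theorem continuous_ee : Continuous ee := by
  rw [continuous_iff_continuousAt]
  intro τ
  rw [ContinuousAt, tendsto_iff_norm_sub_tendsto_zero]
  rw [Metric.tendsto_nhds]
  intro ε hε
  obtain ⟨m, hm⟩ := exists_pow_lt_of_lt_one (show (0 : ℝ) < ε / 4 by positivity)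
    (show (1 / 2 : ℝ) < 1 by norm_num)
  have e : {σ : ℕ → Bool | ∀ k < m, σ k = τ k} = Set.pi (Set.Iio m) fun k => {τ k} := by
    ext σ
    simp [Set.mem_pi]
  have h1 : {σ : ℕ → Bool | ∀ k < m, σ k = τ k} ∈ 𝓝 τ := by
    rw [e]
    exact (isOpen_set_pi (Set.finite_Iio _) fun k _ => isOpen_discrete _).mem_nhds
      (by simp [Set.mem_pi])
  filter_upwards [h1] with σ hσ
  rw [Real.dist_eq, sub_zero, abs_of_nonneg (norm_nonneg _)]
  have h2 := ee_close (σ := σ) (τ := τ) hσ
  refine lt_of_le_of_lt h2 ?_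
  linarith

/-- the values at which a given vector can be used -/
theorem ae_not {Ω : Type} [MeasurableSpace Ω] (μ : Measure Ω) [NullSingletonClass μ] {s : Ω → ℕ → Bool}
    (hs : Function.Injective s) (y : Y) :
    ∀ᵐ ω ∂μ, ∀ c : ℝ, c ≠ 0 → y ≠ c • ee (s ω) := by
  have key : ∀ z : Y, {ω | ∃ c : ℝ, 0 < c ∧ z = c • ee (s ω)}.Subsingleton := by
    rintro z ω ⟨c, hc, h⟩ ω' ⟨c', hc', h'⟩
    apply hs
    refine ee_injective (c := c⁻¹ * c') (by positivity) ?_
    rw [mul_smul, ← h', h, smul_smul, inv_mul_cancel₀ hc.ne', one_smul]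
  have h1 : μ {ω | ∃ c : ℝ, 0 < c ∧ y = c • ee (s ω)} = 0 := (key y).measure_zero μ
  have h2 : μ {ω | ∃ c : ℝ, 0 < c ∧ -y = c • ee (s ω)} = 0 := (key (-y)).measure_zero μ
  filter_upwards [measure_eq_zero_iff_ae_notMem.1 h1, measure_eq_zero_iff_ae_notMem.1 h2]
    with ω h3 h4 c hc h
  rcases lt_or_gt_of_ne hc with h5 | h5
  · exact h4 ⟨-c, neg_pos.2 h5, by rw [neg_smul, h]⟩
  · exact h3 ⟨c, h5, h⟩

theorem main {Ω : Type} [MeasurableSpace Ω] (μ : Measure Ω) [IsFiniteMeasure μ] [NullSingletonClass μ]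
    (hμ : μ ≠ 0) {s : Ω → ℕ → Bool} (hs : Function.Injective s) :
    ¬ NormAttaining μ fun ω => ee (s ω) := by
  rintro ⟨g, y, hg, hsum, htot⟩
  -- the pointwise sums
  have hint : ∫ ω, ‖ee (s ω)‖ ∂μ = μ.real Set.univ := by
    have e : (fun ω => ‖ee (s ω)‖) = fun _ => (1 : ℝ) := funext fun ω => ee_norm _
    rw [e]
    simp
  rw [hint] at htot
  have hgm : ∀ i, AEMeasurable (fun ω => ENNReal.ofReal (|g i ω| * ‖y i‖)) μ := fun i =>
    ((hg i).abs.aestronglyMeasurable.aemeasurable.mul_const _).ennreal_ofReal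
  have hl : ∫⁻ ω, ∑' i, ENNReal.ofReal (|g i ω| * ‖y i‖) ∂μ = μ Set.univ := by
    rw [lintegral_tsum hgm]
    have h1 : ∀ i, ∫⁻ ω, ENNReal.ofReal (|g i ω| * ‖y i‖) ∂μ =
        ENNReal.ofReal ((∫ ω, |g i ω| ∂μ) * ‖y i‖) := by
      intro i
      rw [← integral_mul_const, ofReal_integral_eq_lintegral_ofReal]
      · exact (hg i).abs.mul_const _
      · exact Filter.Eventually.of_forall fun ω => by positivity
    simp_rw [h1]
    rw [← ENNReal.ofReal_tsum_of_nonneg (fun i => mul_nonneg (integral_nonneg fun ω => abs_nonneg _)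
      (norm_nonneg _)) htot.summable, htot.tsum_eq]
    simp [Measure.real]
  have hfin : ∫⁻ ω, ∑' i, ENNReal.ofReal (|g i ω| * ‖y i‖) ∂μ ≠ ⊤ := by
    rw [hl]; exact measure_ne_top _ _
  have hmeas : AEMeasurable (fun ω => ∑' i, ENNReal.ofReal (|g i ω| * ‖y i‖)) μ :=
    AEMeasurable.tsum hgm
  have hlt : ∀ᵐ ω ∂μ, ∑' i, ENNReal.ofReal (|g i ω| * ‖y i‖) < ⊤ := ae_lt_top' hmeas hfin
  have hge : ∀ᵐ ω ∂μ, 1 ≤ ∑' i, ENNReal.ofReal (|g i ω| * ‖y i‖) := by
    filter_upwards [hsum, hlt] with ω h1 h2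
    have h3 : Summable fun i => |g i ω| * ‖y i‖ := by
      have := ENNReal.summable_toReal h2.ne
      refine this.congr fun i => ?_
      rw [ENNReal.toReal_ofReal (by positivity)]
    rw [← ENNReal.ofReal_tsum_of_nonneg (fun i => by positivity) h3, ← ENNReal.ofReal_one]
    refine ENNReal.ofReal_le_ofReal ?_
    have h4 : ‖∑' i, g i ω • y i‖ ≤ ∑' i, |g i ω| * ‖y i‖ := by
      have h5 : (fun i => |g i ω| * ‖y i‖) = fun i => ‖g i ω • y i‖ := by
        funext i; rw [norm_smul, Real.norm_eq_abs]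
      rw [h5] at h3 ⊢
      exact norm_tsum_le_tsum_norm h3
    rwa [h1.tsum_eq, ee_norm] at h4
  have heq : (fun _ => 1 : Ω → ENNReal) =ᵐ[μ] fun ω => ∑' i, ENNReal.ofReal (|g i ω| * ‖y i‖) := by
    refine ae_eq_of_ae_le_of_lintegral_le hge ?_ hmeas ?_
    · simp
    · rw [hl]; simp
  -- no vector can be used
  have hno : ∀ᵐ ω ∂μ, ∀ i, ∀ c : ℝ, c ≠ 0 → y i ≠ c • ee (s ω) :=
    ae_all_iff.2 fun i => ae_not μ hs (y i)
  have hfalse : ∀ᵐ ω ∂μ, False := by
    filter_upwards [hsum, heq, hno] with ω h1 h2 h3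
    have h4 : Summable fun i => |g i ω| * ‖y i‖ := by
      have h5 : ∑' i, ENNReal.ofReal (|g i ω| * ‖y i‖) ≠ ⊤ := by rw [← h2]; exact ENNReal.one_ne_top
      have := ENNReal.summable_toReal h5
      refine this.congr fun i => ?_
      rw [ENNReal.toReal_ofReal (by positivity)]
    have h6 : ∑' i, |g i ω| * ‖y i‖ = 1 := by
      have h7 : ENNReal.ofReal (∑' i, |g i ω| * ‖y i‖) = 1 := by
        rw [ENNReal.ofReal_tsum_of_nonneg (fun i => by positivity) h4, ← h2]
      have h8 := congrArg ENNReal.toReal h7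
      rwa [ENNReal.toReal_ofReal (tsum_nonneg fun i => by positivity), ENNReal.toReal_one] at h8
    -- equality in every functional
    have h9 : ∀ n i, g i ω * bb n (s ω) (y i) = |g i ω| * ‖y i‖ := by
      intro n
      let φ : Y →L[ℝ] ℝ := (ev (n, s ω)).comp Y.subtypeL
      have hφ : ∀ z, φ z = bb n (s ω) z := fun z => rfl
      have h10 : HasSum (fun i => g i ω * bb n (s ω) (y i)) 1 := by
        have := φ.hasSum h1
        simp only [map_smul, smul_eq_mul] at this
        rw [hφ (ee (s ω)), bb_ee] at this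
        exact this
      have h11 : HasSum (fun i => |g i ω| * ‖y i‖) 1 := by
        rw [← h6]; exact h4.hasSum
      have h12 : ∀ i, g i ω * bb n (s ω) (y i) ≤ |g i ω| * ‖y i‖ := fun i =>
        (le_abs_self _).trans (by
          rw [abs_mul]
          exact mul_le_mul_of_nonneg_left (bb_abs _ _ _) (abs_nonneg _))
      have h13 := h11.sub h10
      rw [sub_self] at h13
      intro i
      have h14 := (hasSum_zero_iff_of_nonneg (fun i => sub_nonneg.2 (h12 i))).1 h13
      have h15 := congrFun h14 i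
      simp only [Pi.zero_apply] at h15
      linarith
    obtain ⟨i, hi⟩ : ∃ i, |g i ω| * ‖y i‖ ≠ 0 := by
      by_contra hcon
      push Not at hcon
      simp only [hcon, tsum_zero] at h6
      exact zero_ne_one h6
    have hg0 : g i ω ≠ 0 := fun h => hi (by rw [h, abs_zero, zero_mul])
    have h16 : ∀ n, bb n (s ω) (y i) = (g i ω)⁻¹ * (|g i ω| * ‖y i‖) := by
      intro n
      rw [← h9 n i, ← mul_assoc, inv_mul_cancel₀ hg0, one_mul]
    exact h3 i _ (mul_ne_zero (inv_ne_zero hg0) hi) (eq_smul_ee h16)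
  have : μ = 0 := by
    have := ae_iff.1 hfalse
    simpa using this
  exact hμ this

/-- **Main theorem.**  There is a real polyhedral Banach space `Y` such that for every countably
separated measurable space and every nonzero finite measure `μ` on it which vanishes on the points
there is `f` in `L₁(μ, Y)`, the projective tensor product of `L₁(μ)` and `Y`, which is not
norm-attaining. -/
theorem result : ∃ (Y : Type) (_ : NormedAddCommGroup Y) (_ : NormedSpace ℝ Y),
    CompleteSpace Y ∧ Polyhedral Y ∧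
      ∀ (Ω : Type) [MeasurableSpace Ω] [MeasurableSpace.CountablySeparated Ω] (μ : Measure Ω)
        [IsFiniteMeasure μ] [NullSingletonClass μ], μ ≠ 0 →
        ∃ f : Ω → Y, Integrable f μ ∧ ¬ NormAttaining μ f := by
  refine ⟨Y, inferInstance, inferInstance, inferInstance, fun E hE => polyhedral E, ?_⟩
  intro Ω _ _ μ _ _ hμ
  obtain ⟨s, hs1, hs2⟩ := MeasurableSpace.measurable_injection_nat_bool_of_countablySeparated Ω
  refine ⟨fun ω => ee (s ω), ?_, main μ hμ hs2⟩
  have i1 : SecondCountableTopology (ℕ → Bool) := inferInstance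
  have i2 : SecondCountableTopologyEither (ℕ → Bool) Pool.Agent.Q75.Pol.Y :=
    secondCountableTopologyEither_of_left _ _
  have h1 : StronglyMeasurable fun ω => ee (s ω) :=
    continuous_ee.stronglyMeasurable.comp_measurable hs1
  exact Integrable.of_bound h1.aestronglyMeasurable 1
    (Filter.Eventually.of_forall fun ω => (ee_norm _).le)

/-- In particular the Lebesgue measure on the unit interval. -/
theorem lebesgue : ∃ (Y : Type) (_ : NormedAddCommGroup Y) (_ : NormedSpace ℝ Y),
    CompleteSpace Y ∧ Polyhedral Y ∧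
      ∃ f : ℝ → Y, Integrable f (volume.restrict (Set.Icc 0 1)) ∧
        ¬ NormAttaining (volume.restrict (Set.Icc (0 : ℝ) 1)) f := by
  obtain ⟨Y, i1, i2, h1, h2, h3⟩ := result
  refine ⟨Y, i1, i2, h1, h2, h3 ℝ _ ?_⟩
  intro h
  have := congrArg (fun μ => μ Set.univ) h
  simp at this

end Pool.Agent.Results.MP_ace873_an.PolyhedralNotAttaining
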